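import Pool.Agent.N110.CC.Stm

/-!
# Project CC (helper110), leaf COV (helper362)

Closed subcones are covered by finitely many integral vectors in the interior.
-/

set_option autoImplicit false

namespace Pool.Agent.N362.CC

open Finset Topology
open Pool.Agent.Y167 (cone)
open Pool.Agent.N110.CC

section Cone

variable {W : Type*} [AddCommGroup W] [Module ℝ W]

theorem cone_zero (S : Finset W) : (0 : W) ∈ cone S :=
  ⟨fun _ => 0, fun _ => le_refl _, by simp⟩

theorem cone_add {S : Finset W} {x y : W} (hx : x ∈ cone S) (hy : y ∈ cone S) :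
    x + y ∈ cone S := by
  obtain ⟨c, hc, rfl⟩ := hx
  obtain ⟨d, hd, rfl⟩ := hy
  refine ⟨fun a => c a + d a, fun a => add_nonneg (hc a) (hd a), ?_⟩
  rw [← sum_add_distrib]
  exact sum_congr rfl fun a _ => (add_smul _ _ _).symm

theorem cone_smul {S : Finset W} {t : ℝ} (ht : 0 ≤ t) {x : W} (hx : x ∈ cone S) :
    t • x ∈ cone S := by
  obtain ⟨c, hc, rfl⟩ := hx
  refine ⟨fun a => t * c a, fun a => mul_nonneg ht (hc a), ?_⟩
  rw [smul_sum]
  exact sum_congr rfl fun a _ => smul_smul _ _ _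

theorem cone_sum {S : Finset W} {ι : Type*} (s : Finset ι) (f : ι → W)
    (h : ∀ i ∈ s, f i ∈ cone S) : ∑ i ∈ s, f i ∈ cone S := by
  classical
  induction s using Finset.induction_on with
  | empty => exact cone_zero S
  | insert a s ha ih =>
    rw [sum_insert ha]
    exact cone_add (h a (mem_insert_self _ _)) (ih fun i hi => h i (mem_insert_of_mem hi))

theorem mem_cone {S : Finset W} {a : W} (ha : a ∈ S) : a ∈ cone S := by
  classical
  refine ⟨fun b => if b = a then 1 else 0, fun b => ?_, ?_⟩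
  · dsimp only
    split_ifs
    · exact zero_le_one
    · exact le_refl _
  · rw [sum_eq_single a]
    · dsimp only
      rw [if_pos rfl, one_smul]
    · intro b _ hb
      dsimp only
      rw [if_neg hb, zero_smul]
    · intro h
      exact absurd ha h

theorem cone_mono {S T : Finset W} (h : S ⊆ T) {x : W} (hx : x ∈ cone S) : x ∈ cone T := by
  obtain ⟨c, hc, rfl⟩ := hx
  exact cone_sum S _ fun a ha => cone_smul (hc a) (mem_cone (h ha))

end Cone

variable {ρ : ℕ} {C : Set (Fin ρ → ℝ)}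

theorem interior_smul_mem (hsmul : ∀ t : ℝ, 0 ≤ t → ∀ x ∈ C, t • x ∈ C) {t : ℝ} (ht : 0 < t)
    {x : Fin ρ → ℝ} (hx : x ∈ interior C) : t • x ∈ interior C := by
  rw [mem_interior] at hx ⊢
  obtain ⟨U, hU, hUo, hxU⟩ := hx
  refine ⟨(fun y => t⁻¹ • y) ⁻¹' U, ?_, hUo.preimage (continuous_const_smul _), ?_⟩
  · intro y hy
    have h1 := hsmul t ht.le _ (hU hy)
    simp only [smul_smul, mul_inv_cancel₀ ht.ne', one_smul] at h1
    exact h1
  · simp only [Set.mem_preimage, smul_smul, inv_mul_cancel₀ ht.ne', one_smul]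
    exact hxU

/-- one point -/
theorem local_cone (hC : PC C) {x : Fin ρ → ℝ} (hx : x ∈ interior C) :
    ∃ F : Finset (Fin ρ → ℝ), (∀ a ∈ F, a ∈ interior C ∧ ∀ i, ∃ m : ℤ, a i = m) ∧
      cone F ∈ 𝓝 x := by
  classical
  obtain ⟨r, hr, hball⟩ := Metric.isOpen_iff.1 isOpen_interior x hx
  obtain ⟨M, hM⟩ := exists_nat_gt ((2 * (ρ : ℝ) + 3) / r)
  have hρ0 : (0 : ℝ) ≤ ρ := Nat.cast_nonneg ρ
  have hM0 : (0 : ℝ) < M := lt_of_le_of_lt (by positivity) hM
  have hMr : 2 * (ρ : ℝ) + 3 < M * r := by rwa [div_lt_iff₀ hr] at hM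
  -- points near `M x`
  have hnear : ∀ w : Fin ρ → ℝ, (∀ i, |w i - M * x i| ≤ 2 * (ρ : ℝ) + 2) → w ∈ interior C := by
    intro w hw
    have h1 : (M : ℝ)⁻¹ • w ∈ interior C := by
      apply hball
      rw [Metric.mem_ball, dist_pi_lt_iff hr]
      intro i
      rw [Pi.smul_apply, smul_eq_mul, Real.dist_eq]
      have h2 : (M : ℝ)⁻¹ * w i - x i = (M : ℝ)⁻¹ * (w i - M * x i) := by
        field_simp
      rw [h2, abs_mul, abs_of_pos (inv_pos.2 hM0), inv_mul_lt_iff₀ hM0]
      have := hw i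
      linarith
    have h3 := interior_smul_mem hC.smul hM0 h1
    rwa [smul_smul, mul_inv_cancel₀ hM0.ne', one_smul] at h3
  obtain ⟨z, hz⟩ : ∃ z : Fin ρ → ℝ, z = fun i => ((round ((M : ℝ) * x i) : ℤ) : ℝ) := ⟨_, rfl⟩
  have hz1 : ∀ i, |z i - M * x i| ≤ 1 := by
    intro i
    rw [hz, abs_sub_comm]
    have := abs_sub_round ((M : ℝ) * x i)
    linarith
  obtain ⟨k, hk⟩ : ∃ k : ℤ, k = 2 * (ρ : ℤ) + 1 := ⟨_, rfl⟩
  have hkr : (k : ℝ) = 2 * (ρ : ℝ) + 1 := by rw [hk]; push_cast; ring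
  have hk0 : (0 : ℝ) < k := by rw [hkr]; positivity
  obtain ⟨F, hF⟩ : ∃ F : Finset (Fin ρ → ℝ), F = insert z
    ((univ.image fun i : Fin ρ => z + (k : ℝ) • Pi.single i (1 : ℝ)) ∪
      (univ.image fun i : Fin ρ => z - (k : ℝ) • Pi.single i (1 : ℝ))) := ⟨_, rfl⟩
  have hsing : ∀ i j : Fin ρ, |(k : ℝ) * (Pi.single i (1 : ℝ) : Fin ρ → ℝ) j| ≤ 2 * (ρ : ℝ) + 1 := by
    intro i j
    rw [Pi.single_apply]
    split_ifs
    · rw [mul_one, abs_of_pos hk0, hkr]
    · rw [mul_zero, abs_zero]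
      positivity
  have hsint : ∀ i j : Fin ρ, ∃ m : ℤ, (k : ℝ) * (Pi.single i (1 : ℝ) : Fin ρ → ℝ) j = m := by
    intro i j
    rw [Pi.single_apply]
    split_ifs
    · exact ⟨k, by ring⟩
    · exact ⟨0, by simp⟩
  have hzint : ∀ j, ∃ m : ℤ, z j = m := fun j => ⟨_, by rw [hz]⟩
  refine ⟨F, ?_, ?_⟩
  · intro a ha
    rw [hF, mem_insert, mem_union, mem_image, mem_image] at ha
    rcases ha with rfl | ⟨i, -, rfl⟩ | ⟨i, -, rfl⟩
    · refine ⟨hnear _ fun j => ?_, hzint⟩
      have := hz1 j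
      linarith
    · refine ⟨hnear _ fun j => ?_, fun j => ?_⟩
      · rw [Pi.add_apply, Pi.smul_apply, smul_eq_mul]
        have h1 := hz1 j
        have h2 := hsing i j
        have h3 := abs_add_le (z j - M * x j) ((k : ℝ) * (Pi.single i (1 : ℝ) : Fin ρ → ℝ) j)
        have h4 : z j + (k : ℝ) * (Pi.single i (1 : ℝ) : Fin ρ → ℝ) j - M * x j =
          (z j - M * x j) + (k : ℝ) * (Pi.single i (1 : ℝ) : Fin ρ → ℝ) j := by ring
        rw [h4]
        linarith
      · obtain ⟨m, hm⟩ := hzint j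
        obtain ⟨n, hn⟩ := hsint i j
        refine ⟨m + n, ?_⟩
        rw [Pi.add_apply, Pi.smul_apply, smul_eq_mul, hm, hn]
        push_cast
        rfl
    · refine ⟨hnear _ fun j => ?_, fun j => ?_⟩
      · rw [Pi.sub_apply, Pi.smul_apply, smul_eq_mul]
        have h1 := hz1 j
        have h2 := hsing i j
        have h3 := abs_sub (z j - M * x j) ((k : ℝ) * (Pi.single i (1 : ℝ) : Fin ρ → ℝ) j)
        have h4 : z j - (k : ℝ) * (Pi.single i (1 : ℝ) : Fin ρ → ℝ) j - M * x j =
          (z j - M * x j) - (k : ℝ) * (Pi.single i (1 : ℝ) : Fin ρ → ℝ) j := by ring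
        rw [h4]
        linarith
      · obtain ⟨m, hm⟩ := hzint j
        obtain ⟨n, hn⟩ := hsint i j
        refine ⟨m - n, ?_⟩
        rw [Pi.sub_apply, Pi.smul_apply, smul_eq_mul, hm, hn]
        push_cast
        rfl
  · have hzF : z ∈ cone F := mem_cone (by rw [hF]; exact mem_insert_self _ _)
    have hpF : ∀ i, z + (k : ℝ) • Pi.single i (1 : ℝ) ∈ cone F := fun i => mem_cone (by
      rw [hF]
      exact mem_insert_of_mem (mem_union_left _ (mem_image_of_mem _ (mem_univ i))))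
    have hmF : ∀ i, z - (k : ℝ) • Pi.single i (1 : ℝ) ∈ cone F := fun i => mem_cone (by
      rw [hF]
      exact mem_insert_of_mem (mem_union_right _ (mem_image_of_mem _ (mem_univ i))))
    -- the points near `z`
    have hcov : ∀ y : Fin ρ → ℝ, (∀ i, |y i - z i| ≤ 2) → y ∈ cone F := by
      intro y hy
      obtain ⟨t, ht⟩ : ∃ t : Fin ρ → ℝ, t = fun i => y i - z i := ⟨_, rfl⟩
      have hsum : ∑ i, |t i| ≤ k := by
        calc ∑ i, |t i| ≤ ∑ _i : Fin ρ, (2 : ℝ) := sum_le_sum fun i _ => by rw [ht]; exact hy i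
          _ = 2 * ρ := by rw [sum_const, card_univ, Fintype.card_fin, nsmul_eq_mul]; ring
          _ ≤ k := by rw [hkr]; linarith
      have hy' : y = (1 - (∑ i, |t i|) / k) • z +
          ∑ i, ((max (t i) 0 / k) • (z + (k : ℝ) • Pi.single i (1 : ℝ)) +
            (max (-(t i)) 0 / k) • (z - (k : ℝ) • Pi.single i (1 : ℝ))) := by
        have h1 : ∀ i, (max (t i) 0 / k) • (z + (k : ℝ) • (Pi.single i (1 : ℝ) : Fin ρ → ℝ)) +
            (max (-(t i)) 0 / k) • (z - (k : ℝ) • (Pi.single i (1 : ℝ) : Fin ρ → ℝ)) =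
            (|t i| / k) • z + Pi.single i (t i) := by
          intro i
          have h2 : max (t i) 0 + max (-(t i)) 0 = |t i| := by
            rcases le_total 0 (t i) with h | h
            · rw [max_eq_left h, max_eq_right (by linarith), abs_of_nonneg h, add_zero]
            · rw [max_eq_right h, max_eq_left (by linarith), abs_of_nonpos h, zero_add]
          have h3 : max (t i) 0 - max (-(t i)) 0 = t i := by
            rcases le_total 0 (t i) with h | h
            · rw [max_eq_left h, max_eq_right (by linarith), sub_zero]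
            · rw [max_eq_right h, max_eq_left (by linarith)]; ring
          have h4 : (Pi.single i (t i) : Fin ρ → ℝ) = t i • (Pi.single i (1 : ℝ) : Fin ρ → ℝ) := by
            rw [← Pi.single_smul, smul_eq_mul, mul_one]
          rw [h4, ← h2]
          nth_rw 5 [← h3]
          ext j
          simp only [Pi.add_apply, Pi.sub_apply, Pi.smul_apply, smul_eq_mul]
          field_simp
          ring
        rw [sum_congr rfl fun i _ => h1 i, sum_add_distrib, ← sum_smul, ← add_assoc, ← add_smul,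
          ← sum_div]
        have h5 : (1 - (∑ i, |t i|) / k + (∑ i, |t i|) / k : ℝ) = 1 := by ring
        rw [h5, one_smul]
        have h6 : ∑ i, (Pi.single i (t i) : Fin ρ → ℝ) = t := Finset.univ_sum_single t
        rw [h6, ht]
        ext j
        simp
      rw [hy']
      refine cone_add (cone_smul ?_ hzF) (cone_sum _ _ fun i _ => cone_add (cone_smul ?_ (hpF i))
        (cone_smul ?_ (hmF i)))
      · rw [sub_nonneg, div_le_one hk0]
        exact hsum
      · exact div_nonneg (le_max_right _ _) hk0.le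
      · exact div_nonneg (le_max_right _ _) hk0.le
    rw [Metric.mem_nhds_iff]
    refine ⟨(M : ℝ)⁻¹, inv_pos.2 hM0, fun y hy => ?_⟩
    rw [Metric.mem_ball, dist_pi_lt_iff (inv_pos.2 hM0)] at hy
    have h1 : (M : ℝ) • y ∈ cone F := by
      apply hcov
      intro i
      rw [Pi.smul_apply, smul_eq_mul]
      have h2 := hy i
      rw [Real.dist_eq] at h2
      have h3 : |(M : ℝ) * y i - M * x i| < 1 := by
        rw [← mul_sub, abs_mul, abs_of_pos hM0]
        have h4 := mul_lt_mul_of_pos_left h2 hM0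
        rwa [mul_inv_cancel₀ hM0.ne'] at h4
      have h4 := hz1 i
      have h5 : (M : ℝ) * y i - z i = (M * y i - M * x i) - (z i - M * x i) := by ring
      rw [h5]
      have := abs_sub (M * y i - M * x i) (z i - M * x i)
      linarith
    have h2 := cone_smul (inv_nonneg.2 hM0.le) h1
    rwa [smul_smul, inv_mul_cancel₀ hM0.ne', one_smul] at h2

theorem leafCOV : S_COV := by
  classical
  intro ρ C hC K hK hKs hKi
  have h1 : ∀ x : Fin ρ → ℝ, ∃ F : Finset (Fin ρ → ℝ), x ∈ interior C →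
      (∀ a ∈ F, a ∈ interior C ∧ ∀ i, ∃ m : ℤ, a i = m) ∧ cone F ∈ 𝓝 x := by
    intro x
    by_cases hx : x ∈ interior C
    · obtain ⟨F, hF⟩ := local_cone hC hx
      exact ⟨F, fun _ => hF⟩
    · exact ⟨∅, fun h => absurd h hx⟩
  choose F hF using h1
  have hcomp : IsCompact (K ∩ Metric.sphere (0 : Fin ρ → ℝ) 1) :=
    (isCompact_sphere _ _).inter_left hK
  have hint : ∀ x ∈ K ∩ Metric.sphere (0 : Fin ρ → ℝ) 1, x ∈ interior C := by
    rintro x ⟨hx, hx1⟩
    apply hKi x hx
    rintro rfl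
    simp at hx1
  obtain ⟨t, ht, hcov⟩ := hcomp.elim_nhds_subcover (fun x => cone (F x))
    fun x hx => (hF x (hint x hx)).2
  refine ⟨t.biUnion F, ?_, ?_⟩
  · intro a ha
    obtain ⟨x, hx, hax⟩ := mem_biUnion.1 ha
    exact (hF x (hint x (ht x hx))).1 a hax
  · intro x hx
    by_cases hx0 : x = 0
    · rw [hx0]
      exact cone_zero _
    · have hn : 0 < ‖x‖ := norm_pos_iff.2 hx0
      have h2 : ‖x‖⁻¹ • x ∈ K ∩ Metric.sphere (0 : Fin ρ → ℝ) 1 := by
        refine ⟨hKs _ (inv_pos.2 hn) x hx, ?_⟩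
        rw [mem_sphere_zero_iff_norm, norm_smul, norm_inv, norm_norm, inv_mul_cancel₀ hn.ne']
      have h3 := hcov h2
      rw [Set.mem_iUnion₂] at h3
      obtain ⟨y, hy, hxy⟩ := h3
      have h4 := cone_smul hn.le (cone_mono (subset_biUnion_of_mem F hy) hxy)
      rwa [smul_smul, mul_inv_cancel₀ hn.ne', one_smul] at h4

end Pool.Agent.N362.CC
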